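import Mathlib

/-!
# Moments of the unit disc
-/

set_option autoImplicit false

namespace Pool.Agent.Helper12.G3

open MeasureTheory Set Metric
open scoped Real ComplexConjugate

/-- rotation of the disc -/
theorem int_rot (f : ℂ → ℂ) (ζ : Circle) :
    ∫ w in ball (0 : ℂ) 1, f (ζ * w) = ∫ w in ball (0 : ℂ) 1, f w := by
  have h1 := (rotation ζ).measurePreserving.setIntegral_preimage_emb
    (rotation ζ).toHomeomorph.measurableEmbedding f (ball (0 : ℂ) 1)
  have h2 : (rotation ζ) ⁻¹' ball (0 : ℂ) 1 = ball (0 : ℂ) 1 := by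
    ext w
    rw [mem_preimage, mem_ball_zero_iff, mem_ball_zero_iff, LinearIsometryEquiv.norm_map]
  rw [← h1]
  rw [h2]
  rfl

theorem mom_ne {a b : ℕ} (h : a ≠ b) :
    ∫ w in ball (0 : ℂ) 1, w ^ a * conj w ^ b = 0 := by
  have hab : ((a : ℝ) - b) ≠ 0 := sub_ne_zero.2 (by exact_mod_cast h)
  have h1 := int_rot (fun w => w ^ a * conj w ^ b) (Circle.exp (π / ((a : ℝ) - b)))
  have h2 : ∀ w : ℂ, ((Circle.exp (π / ((a : ℝ) - b)) : ℂ) * w) ^ a *
      conj ((Circle.exp (π / ((a : ℝ) - b)) : ℂ) * w) ^ b = -(w ^ a * conj w ^ b) := by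
    intro w
    have h3 : (Circle.exp (π / ((a : ℝ) - b)) : ℂ) ^ a *
        conj (Circle.exp (π / ((a : ℝ) - b)) : ℂ) ^ b = -1 := by
      rw [Circle.coe_exp, ← Complex.exp_conj, ← Complex.exp_nat_mul, ← Complex.exp_nat_mul,
        ← Complex.exp_add]
      have h4 : (a : ℂ) * (((π / ((a : ℝ) - b) : ℝ) : ℂ) * Complex.I) +
          (b : ℂ) * conj (((π / ((a : ℝ) - b) : ℝ) : ℂ) * Complex.I) = π * Complex.I := by
        rw [map_mul, Complex.conj_ofReal, Complex.conj_I]
        have h5 : ((a : ℂ) - b) ≠ 0 := by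
          intro h6
          apply hab
          exact_mod_cast h6
        push_cast
        field_simp
        ring
      rw [h4, Complex.exp_pi_mul_I]
    rw [map_mul, mul_pow, mul_pow]
    linear_combination (w ^ a * conj w ^ b) * h3
  simp only [h2] at h1
  rw [integral_neg] at h1
  have h6 : (2 : ℂ) * ∫ w in ball (0 : ℂ) 1, w ^ a * conj w ^ b = 0 := by
    linear_combination -h1
  simpa using h6

theorem mom_eq (a : ℕ) :
    ∫ w in ball (0 : ℂ) 1, w ^ a * conj w ^ a = ((π / (a + 1) : ℝ) : ℂ) := by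
  have h1 : ∀ w : ℂ, w ^ a * conj w ^ a = ((‖w‖ ^ (2 * a) : ℝ) : ℂ) := by
    intro w
    rw [← mul_pow, Complex.mul_conj, Complex.normSq_eq_norm_sq, pow_mul]
    push_cast
    rfl
  simp only [h1]
  rw [integral_complex_ofReal]
  congr 1
  rw [← integral_indicator measurableSet_ball]
  have h2 : (fun w : ℂ => (ball (0 : ℂ) 1).indicator (fun w => ‖w‖ ^ (2 * a)) w) =
      fun w : ℂ => (Iio (1 : ℝ)).indicator (fun r => r ^ (2 * a)) ‖w‖ := by
    funext w
    by_cases h : ‖w‖ < 1
    · rw [indicator_of_mem (by simpa using h), indicator_of_mem (by simpa using h)]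
    · rw [indicator_of_notMem (by simpa using h), indicator_of_notMem (by simpa using h)]
  rw [h2, integral_fun_norm_addHaar volume (fun r => (Iio (1 : ℝ)).indicator (fun r => r ^ (2 * a)) r)]
  rw [Complex.finrank_real_complex]
  have h3 : (volume : Measure ℂ).real (ball (0 : ℂ) 1) = π := by
    rw [Measure.real, Complex.volume_ball]
    simp
  rw [h3]
  have h4 : ∫ y in Ioi (0 : ℝ), y ^ (2 - 1) • (Iio (1 : ℝ)).indicator (fun r => r ^ (2 * a)) y =
      1 / (2 * a + 2) := by
    have h5 : ∀ y : ℝ, y ^ (2 - 1) • (Iio (1 : ℝ)).indicator (fun r => r ^ (2 * a)) y =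
        (Iio (1 : ℝ)).indicator (fun r => r ^ (2 * a + 1)) y := by
      intro y
      by_cases h : y < 1
      · rw [indicator_of_mem (by simpa using h), indicator_of_mem (by simpa using h), smul_eq_mul]
        ring
      · rw [indicator_of_notMem (by simpa using h), indicator_of_notMem (by simpa using h), smul_zero]
    simp only [h5]
    rw [setIntegral_indicator measurableSet_Iio, Ioi_inter_Iio, ← integral_Ioc_eq_integral_Ioo,
      ← intervalIntegral.integral_of_le zero_le_one, integral_pow]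
    push_cast
    simp
    ring
  rw [h4]
  simp
  field_simp

end Pool.Agent.Helper12.G3
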