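import Pool.Agent.Helper12.G3.Mom

/-!
# The polynomial template

`k0` is the polynomial whose average over the disc `B (c, |c|)` is
`-(1 - c.re - 8 c.im²)² - |c - 1|²`.
-/

set_option autoImplicit false

namespace Pool.Agent.Helper12.G3

open MeasureTheory Set Metric
open scoped Real ComplexConjugate

theorem intOn {f : ℂ → ℂ} (hf : Continuous f) (z : ℂ) (r : ℝ) : IntegrableOn f (ball z r) :=
  (hf.continuousOn.integrableOn_compact (isCompact_closedBall z r)).mono_set ball_subset_closedBall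

theorem intOnR {f : ℂ → ℝ} (hf : Continuous f) (z : ℂ) (r : ℝ) : IntegrableOn f (ball z r) :=
  (hf.continuousOn.integrableOn_compact (isCompact_closedBall z r)).mono_set ball_subset_closedBall

/-- moments of a shifted disc -/
theorem mom_shift (a b : ℕ) (x : ℝ) :
    ∫ w in ball (0 : ℂ) 1, ((x : ℂ) + w) ^ a * conj ((x : ℂ) + w) ^ b =
      ∑ m ∈ Finset.range (a + 1), ∑ n ∈ Finset.range (b + 1),
        (x : ℂ) ^ m * (a.choose m : ℂ) * ((x : ℂ) ^ n * (b.choose n : ℂ)) *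
          (if a - m = b - n then ((π / (((a - m : ℕ) : ℝ) + 1) : ℝ) : ℂ) else 0) := by
  have h1 : ∀ w : ℂ, ((x : ℂ) + w) ^ a * conj ((x : ℂ) + w) ^ b =
      ∑ m ∈ Finset.range (a + 1), ∑ n ∈ Finset.range (b + 1),
        (x : ℂ) ^ m * (a.choose m : ℂ) * ((x : ℂ) ^ n * (b.choose n : ℂ)) *
          (w ^ (a - m) * conj w ^ (b - n)) := by
    intro w
    rw [map_add, Complex.conj_ofReal, add_pow, add_pow, Finset.sum_mul_sum]
    exact Finset.sum_congr rfl fun m _ => Finset.sum_congr rfl fun n _ => by ring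
  simp only [h1]
  rw [integral_finsetSum]
  · refine Finset.sum_congr rfl fun m _ => ?_
    rw [integral_finsetSum]
    · refine Finset.sum_congr rfl fun n _ => ?_
      rw [integral_const_mul]
      congr 1
      by_cases h : a - m = b - n
      · rw [if_pos h, ← h]
        exact mom_eq (a - m)
      · rw [if_neg h]
        exact mom_ne h
    · intro n _
      exact intOn (by fun_prop) 0 1
  · intro m _
    exact intOn (by fun_prop) 0 1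

theorem re_int {f : ℂ → ℂ} (hf : Continuous f) :
    ∫ w in ball (0 : ℂ) 1, (f w).re = (∫ w in ball (0 : ℂ) 1, f w).re :=
  integral_re (intOn hf 0 1)

/-- the polynomial template -/
noncomputable def k0 (z : ℂ) : ℝ :=
  (-2 + 4 * z + (13 / 3) * (z * conj z) - (17 / 2) * z ^ 2 - 2 * (z ^ 2 * conj z) + 4 * z ^ 3
    - (36 / 5) * (z ^ 2 * conj z ^ 2) - 8 * z ^ 4 + (64 / 5) * (z ^ 3 * conj z) : ℂ).re

theorem k0_cont : Continuous k0 := by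
  unfold k0
  fun_prop

/-- the average over the disc `c B (x, 1)`, as a complex polynomial -/
noncomputable def Gc (c : ℂ) (x : ℝ) : ℂ :=
  -2 + 4 * c * x + (13 / 3) * (c * conj c) * (x ^ 2 + 1 / 2) - (17 / 2) * c ^ 2 * x ^ 2
    - 2 * (c ^ 2 * conj c) * (x ^ 3 + x) + 4 * c ^ 3 * x ^ 3
    - (36 / 5) * (c ^ 2 * conj c ^ 2) * (x ^ 4 + 2 * x ^ 2 + 1 / 3) - 8 * c ^ 4 * x ^ 4
    + (64 / 5) * (c ^ 3 * conj c) * (x ^ 4 + 3 / 2 * x ^ 2)

theorem int_k0 (c : ℂ) (x : ℝ) :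
    ∫ w in ball (0 : ℂ) 1, k0 (c * ((x : ℂ) + w)) = π * (Gc c x).re := by
  have h1 : ∀ w : ℂ, k0 (c * ((x : ℂ) + w)) =
      Complex.re (-2 * (((x : ℂ) + w) ^ 0 * conj ((x : ℂ) + w) ^ 0)
        + 4 * c * (((x : ℂ) + w) ^ 1 * conj ((x : ℂ) + w) ^ 0)
        + (13 / 3) * (c * conj c) * (((x : ℂ) + w) ^ 1 * conj ((x : ℂ) + w) ^ 1)
        + -(17 / 2) * c ^ 2 * (((x : ℂ) + w) ^ 2 * conj ((x : ℂ) + w) ^ 0)
        + -2 * (c ^ 2 * conj c) * (((x : ℂ) + w) ^ 2 * conj ((x : ℂ) + w) ^ 1)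
        + 4 * c ^ 3 * (((x : ℂ) + w) ^ 3 * conj ((x : ℂ) + w) ^ 0)
        + -(36 / 5) * (c ^ 2 * conj c ^ 2) * (((x : ℂ) + w) ^ 2 * conj ((x : ℂ) + w) ^ 2)
        + -8 * c ^ 4 * (((x : ℂ) + w) ^ 4 * conj ((x : ℂ) + w) ^ 0)
        + (64 / 5) * (c ^ 3 * conj c) * (((x : ℂ) + w) ^ 3 * conj ((x : ℂ) + w) ^ 1)) := by
    intro w
    unfold k0
    rw [map_mul]
    congr 1
    ring
  simp only [h1]
  rw [re_int (by fun_prop)]
  have hm : ∀ (A : ℂ) (a b : ℕ), ∫ w in ball (0 : ℂ) 1,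
      A * (((x : ℂ) + w) ^ a * conj ((x : ℂ) + w) ^ b) =
      A * ∑ m ∈ Finset.range (a + 1), ∑ n ∈ Finset.range (b + 1),
        (x : ℂ) ^ m * (a.choose m : ℂ) * ((x : ℂ) ^ n * (b.choose n : ℂ)) *
          (if a - m = b - n then ((π / (((a - m : ℕ) : ℝ) + 1) : ℝ) : ℂ) else 0) := by
    intro A a b
    rw [integral_const_mul, mom_shift]
  rw [integral_add (intOn (by fun_prop) 0 1) (intOn (by fun_prop) 0 1),
    integral_add (intOn (by fun_prop) 0 1) (intOn (by fun_prop) 0 1),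
    integral_add (intOn (by fun_prop) 0 1) (intOn (by fun_prop) 0 1),
    integral_add (intOn (by fun_prop) 0 1) (intOn (by fun_prop) 0 1),
    integral_add (intOn (by fun_prop) 0 1) (intOn (by fun_prop) 0 1),
    integral_add (intOn (by fun_prop) 0 1) (intOn (by fun_prop) 0 1),
    integral_add (intOn (by fun_prop) 0 1) (intOn (by fun_prop) 0 1),
    integral_add (intOn (by fun_prop) 0 1) (intOn (by fun_prop) 0 1)]
  simp only [hm]
  have e : (π : ℝ) * (Gc c x).re = ((π : ℂ) * Gc c x).re := by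
    rw [Complex.re_ofReal_mul]
  rw [e]
  congr 1
  unfold Gc
  simp [Finset.sum_range_succ, Nat.choose]
  ring

theorem int_k0_shift (c : ℂ) (t : ℝ) :
    ∫ z in ball (1 : ℂ) 1, k0 (c * (z - t)) = π * (Gc c (1 - t)).re := by
  rw [← int_k0 c (1 - t)]
  have h1 := (measurePreserving_add_left (volume : Measure ℂ) 1).setIntegral_preimage_emb
    (measurableEmbedding_addLeft (1 : ℂ)) (fun z : ℂ => k0 (c * (z - t))) (ball (1 : ℂ) 1)
  have h2 : (fun x : ℂ => 1 + x) ⁻¹' ball (1 : ℂ) 1 = ball (0 : ℂ) 1 := by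
    ext w
    rw [mem_preimage, mem_ball, mem_ball_zero_iff, dist_eq_norm, add_sub_cancel_left]
  rw [← h1, h2]
  refine setIntegral_congr_fun measurableSet_ball fun w _ => ?_
  show k0 (c * (1 + w - t)) = k0 (c * (((1 - t : ℝ) : ℂ) + w))
  congr 1
  push_cast
  ring

theorem int_k0_one (c : ℂ) : ∫ z in ball (1 : ℂ) 1, k0 (c * z) = π * (Gc c 1).re := by
  have h := int_k0_shift c 0
  simpa using h

theorem pow2_re (c : ℂ) : (c ^ 2).re = c.re ^ 2 - c.im ^ 2 := by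
  rw [pow_two, Complex.mul_re]; ring

theorem pow2_im (c : ℂ) : (c ^ 2).im = 2 * c.re * c.im := by
  rw [pow_two, Complex.mul_im]; ring

theorem pow3_re (c : ℂ) : (c ^ 3).re = c.re ^ 3 - 3 * c.re * c.im ^ 2 := by
  rw [pow_succ, Complex.mul_re, pow2_re, pow2_im]; ring

theorem pow3_im (c : ℂ) : (c ^ 3).im = 3 * c.re ^ 2 * c.im - c.im ^ 3 := by
  rw [pow_succ, Complex.mul_im, pow2_re, pow2_im]; ring

theorem pow4_re (c : ℂ) : (c ^ 4).re = c.re ^ 4 - 6 * c.re ^ 2 * c.im ^ 2 + c.im ^ 4 := by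
  rw [pow_succ, Complex.mul_re, pow3_re, pow3_im]; ring

/-- the real part of `Gc` -/
theorem Gc_re (c : ℂ) (x : ℝ) :
    (Gc c x).re = -2 + 4 * c.re * x + (13 / 3) * (c.re ^ 2 + c.im ^ 2) * (x ^ 2 + 1 / 2)
      - (17 / 2) * (c.re ^ 2 - c.im ^ 2) * x ^ 2
      - 2 * (c.re * (c.re ^ 2 + c.im ^ 2)) * (x ^ 3 + x)
      + 4 * (c.re ^ 3 - 3 * c.re * c.im ^ 2) * x ^ 3
      - (36 / 5) * (c.re ^ 2 + c.im ^ 2) ^ 2 * (x ^ 4 + 2 * x ^ 2 + 1 / 3)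
      - 8 * (c.re ^ 4 - 6 * c.re ^ 2 * c.im ^ 2 + c.im ^ 4) * x ^ 4
      + (64 / 5) * ((c.re ^ 2 - c.im ^ 2) * (c.re ^ 2 + c.im ^ 2)) * (x ^ 4 + 3 / 2 * x ^ 2) := by
  have h1 : c * conj c = ((c.re ^ 2 + c.im ^ 2 : ℝ) : ℂ) := by
    rw [Complex.mul_conj, Complex.normSq_apply]
    congr 1
    ring
  have e : Gc c x = (((-2 : ℝ) : ℂ) + ((4 * x : ℝ) : ℂ) * c +
      (((13 / 3) * (c.re ^ 2 + c.im ^ 2) * (x ^ 2 + 1 / 2) : ℝ) : ℂ) +
      ((-(17 / 2) * x ^ 2 : ℝ) : ℂ) * c ^ 2 +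
      ((-2 * (c.re ^ 2 + c.im ^ 2) * (x ^ 3 + x) : ℝ) : ℂ) * c +
      ((4 * x ^ 3 : ℝ) : ℂ) * c ^ 3 +
      ((-(36 / 5) * (c.re ^ 2 + c.im ^ 2) ^ 2 * (x ^ 4 + 2 * x ^ 2 + 1 / 3) : ℝ) : ℂ) +
      ((-8 * x ^ 4 : ℝ) : ℂ) * c ^ 4 +
      (((64 / 5) * (c.re ^ 2 + c.im ^ 2) * (x ^ 4 + 3 / 2 * x ^ 2) : ℝ) : ℂ) * c ^ 2) := by
    have h2 : Gc c x = -2 + 4 * c * x + (13 / 3) * (c * conj c) * (x ^ 2 + 1 / 2)
      - (17 / 2) * c ^ 2 * x ^ 2
      - 2 * (c * conj c) * c * (x ^ 3 + x) + 4 * c ^ 3 * x ^ 3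
      - (36 / 5) * (c * conj c) ^ 2 * (x ^ 4 + 2 * x ^ 2 + 1 / 3) - 8 * c ^ 4 * x ^ 4
      + (64 / 5) * (c * conj c) * c ^ 2 * (x ^ 4 + 3 / 2 * x ^ 2) := by
      unfold Gc
      ring
    rw [h2, h1]
    push_cast
    ring
  rw [e]
  simp only [Complex.add_re, Complex.re_ofReal_mul, Complex.ofReal_re, pow2_re, pow3_re, pow4_re]
  ring

theorem Gc_one (c : ℂ) :
    (Gc c 1).re = -(1 - c.re - 8 * c.im ^ 2) ^ 2 - ‖c - 1‖ ^ 2 := by
  rw [← Complex.normSq_eq_norm_sq, Complex.normSq_apply, Gc_re]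
  simp only [Complex.sub_re, Complex.sub_im, Complex.one_re, Complex.one_im]
  ring

/-- the difference quotient -/
noncomputable def Qc (c : ℂ) (t : ℝ) : ℝ :=
  -4 * c.re - (13 / 3) * (c.re ^ 2 + c.im ^ 2) * (2 - t) + (17 / 2) * (c.re ^ 2 - c.im ^ 2) * (2 - t)
    + 2 * (c.re * (c.re ^ 2 + c.im ^ 2)) * (4 - 3 * t + t ^ 2)
    - 4 * (c.re ^ 3 - 3 * c.re * c.im ^ 2) * (3 - 3 * t + t ^ 2)
    + (36 / 5) * (c.re ^ 2 + c.im ^ 2) ^ 2 * (8 - 8 * t + 4 * t ^ 2 - t ^ 3)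
    + 8 * (c.re ^ 4 - 6 * c.re ^ 2 * c.im ^ 2 + c.im ^ 4) * (4 - 6 * t + 4 * t ^ 2 - t ^ 3)
    - (64 / 5) * ((c.re ^ 2 - c.im ^ 2) * (c.re ^ 2 + c.im ^ 2)) *
      (7 - (15 / 2) * t + 4 * t ^ 2 - t ^ 3)

theorem Gc_diff (c : ℂ) (t : ℝ) : (Gc c (1 - t)).re - (Gc c 1).re = t * Qc c t := by
  rw [Gc_re, Gc_re]
  unfold Qc
  ring

theorem Qc_one : Qc 1 0 = 1 / 3 := by
  unfold Qc
  norm_num

theorem Qc_cont : Continuous (fun p : ℂ × ℝ => Qc p.1 p.2) := by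
  unfold Qc
  fun_prop

theorem Qc_near : ∃ ε : ℝ, 0 < ε ∧ ε ≤ 1 / 8 ∧ ∀ c : ℂ, ‖c - 1‖ ≤ ε → ∀ t : ℝ, |t| ≤ ε →
    1 / 6 ≤ Qc c t := by
  have h1 : ∀ᶠ p : ℂ × ℝ in nhds (1, 0), 1 / 6 < Qc p.1 p.2 := by
    have h2 : (1 : ℝ) / 6 < Qc ((1 : ℂ), (0 : ℝ)).1 ((1 : ℂ), (0 : ℝ)).2 := by
      show (1 : ℝ) / 6 < Qc 1 0
      rw [Qc_one]
      norm_num
    exact Qc_cont.continuousAt.eventually (lt_mem_nhds h2)
  obtain ⟨ε, hε, h⟩ := Metric.eventually_nhds_iff.1 h1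
  refine ⟨min (ε / 2) (1 / 8), by positivity, min_le_right _ _, ?_⟩
  intro c hc t ht
  have h3 := min_le_left (ε / 2) (1 / 8 : ℝ)
  have h4 := @h (c, t) ?_
  · exact h4.le
  · rw [Prod.dist_eq, max_lt_iff]
    constructor
    · show dist c 1 < ε
      rw [dist_eq_norm]
      linarith
    · show dist t 0 < ε
      rw [Real.dist_eq, sub_zero]
      linarith

end Pool.Agent.Helper12.G3
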