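import Pool.Agent.Helper39.Area.Exterior

/-!
# The upper tail of the strong Marshall conjecture from the moments near `t = 2`

`x = Re h / L`, `L = log (R² / (R² - 1))`. Goluzin: `x ≤ 1`. For `1 - ϑ ≤ x ≤ 1` and a finite grid of
exponents `t = 2 - δ`, `a (x² + 2 c (1 - x)²) ≤ t x - t² / 4 + c δ²` for the nearest `t / 2`; so
`exp (a (x² + 2 c (1 - x)²) L) ≤ ∑ |ψ'|^t exp ((c δ² - t² / 4) L)`, and the means of `|ψ'|^t` are at most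
`C exp ((t² / 4 - c δ²) L)`.
-/

set_option autoImplicit false

namespace Pool.Agent.Helper12.G3

open MeasureTheory Set Real

/-- the grid point next to `ξ` -/
theorem grid {ϑ ξ : ℝ} (hϑ : 0 < ϑ) (h0 : 0 ≤ ξ) (h1 : ξ ≤ ϑ) {n : ℕ} (hn : 0 < n) :
    ∃ j ∈ Finset.range n, |ξ - ϑ * ((j : ℝ) + 1) / n| ≤ ϑ / n := by
  have hn0 : (0 : ℝ) < n := by exact_mod_cast hn
  by_cases hξ : ξ = 0
  · refine ⟨0, Finset.mem_range.2 hn, ?_⟩
    rw [hξ, Nat.cast_zero, zero_add, mul_one, zero_sub, abs_neg, abs_of_pos (by positivity)]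
  · have hpos : 0 < ξ := lt_of_le_of_ne h0 (Ne.symm hξ)
    have hy : 0 < ξ * n / ϑ := by positivity
    obtain ⟨k, hk⟩ : ∃ k : ℕ, k = ⌈ξ * n / ϑ⌉₊ := ⟨_, rfl⟩
    have hc : 0 < k := by rw [hk]; exact Nat.ceil_pos.2 hy
    have hle : k ≤ n := by
      rw [hk]
      apply Nat.ceil_le.2
      rw [div_le_iff₀ hϑ]
      nlinarith
    have h2 : ξ * n / ϑ ≤ k := by rw [hk]; exact Nat.le_ceil _
    have h3 : (k : ℝ) < ξ * n / ϑ + 1 := by rw [hk]; exact Nat.ceil_lt_add_one hy.le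
    refine ⟨k - 1, Finset.mem_range.2 (by omega), ?_⟩
    have e1 : ((k - 1 : ℕ) : ℝ) + 1 = (k : ℝ) := by
      rw [Nat.cast_sub (by omega)]
      push_cast
      ring
    rw [e1]
    rw [div_le_iff₀ hϑ] at h2
    have h4 : ϑ * (k : ℝ) < ξ * n + ϑ := by
      have := mul_lt_mul_of_pos_left h3 hϑ
      have e : ϑ * (ξ * n / ϑ + 1) = ξ * n + ϑ := by
        field_simp
      linarith
    have e2 : ξ - ϑ * (k : ℝ) / n = (ξ * n - ϑ * k) / n := by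
      field_simp
    rw [e2, abs_div, abs_of_pos hn0]
    apply div_le_div_of_nonneg_right _ hn0.le
    rw [abs_le]
    constructor <;> nlinarith

/-- pointwise bound -/
theorem pointwise {ϑ a c : ℝ} (hϑ : 0 < ϑ) (hϑ1 : ϑ ≤ 1 / 2) (hc : 0 ≤ c) {n : ℕ}
    (hn : 0 < n) (hn2 : (1 + 4 * c) * (ϑ / n) ^ 2 ≤ (1 - a) * (1 - ϑ) ^ 2) {x L : ℝ} (hL : 0 ≤ L)
    (hx : 1 - ϑ ≤ x) (hx1 : x ≤ 1) :
    exp (a * (x ^ 2 + 2 * c * (1 - x) ^ 2) * L) ≤ ∑ j ∈ Finset.range n,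
      exp (x * L * (2 - 2 * (ϑ * ((j : ℝ) + 1) / n))) *
        exp (-(((2 - 2 * (ϑ * ((j : ℝ) + 1) / n)) ^ 2 / 4 -
          c * (2 * (ϑ * ((j : ℝ) + 1) / n)) ^ 2) * L)) := by
  obtain ⟨j, hj, hj1⟩ := grid hϑ (ξ := 1 - x) (by linarith) (by linarith) hn
  refine le_trans ?_ (Finset.single_le_sum (f := fun j : ℕ =>
    exp (x * L * (2 - 2 * (ϑ * ((j : ℝ) + 1) / n))) *
        exp (-(((2 - 2 * (ϑ * ((j : ℝ) + 1) / n)) ^ 2 / 4 -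
          c * (2 * (ϑ * ((j : ℝ) + 1) / n)) ^ 2) * L)))
    (fun i _ => by positivity) hj)
  obtain ⟨y, hy⟩ : ∃ y : ℝ, y = ϑ * ((j : ℝ) + 1) / n := ⟨_, rfl⟩
  show _ ≤ exp (x * L * (2 - 2 * (ϑ * ((j : ℝ) + 1) / n))) *
        exp (-(((2 - 2 * (ϑ * ((j : ℝ) + 1) / n)) ^ 2 / 4 -
          c * (2 * (ϑ * ((j : ℝ) + 1) / n)) ^ 2) * L))
  rw [← hy] at hj1 ⊢
  rw [← exp_add, exp_le_exp]
  have h1 : (1 - x - y) ^ 2 ≤ (ϑ / n) ^ 2 := by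
    rw [← sq_abs (1 - x - y)]
    exact pow_le_pow_left₀ (abs_nonneg _) hj1 2
  have h1a : 0 ≤ 1 - a := by
    by_contra hc'
    push Not at hc'
    have h5 : 0 < (1 - ϑ) ^ 2 := by
      have : 0 < 1 - ϑ := by linarith
      positivity
    have h6 : 0 ≤ (1 + 4 * c) * (ϑ / n) ^ 2 := by positivity
    nlinarith
  have h2 : (1 - ϑ) ^ 2 ≤ x ^ 2 := pow_le_pow_left₀ (by linarith) hx 2
  have h3 : (1 - a) * (1 - ϑ) ^ 2 ≤ (1 - a) * x ^ 2 := mul_le_mul_of_nonneg_left h2 h1a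
  have h4 : (1 - x) ^ 2 ≤ 2 * y ^ 2 + 2 * (ϑ / n) ^ 2 := by nlinarith [sq_nonneg (1 - x - 2 * y)]
  have h5 : 2 * c * (1 - x) ^ 2 ≤ 4 * c * y ^ 2 + 4 * c * (ϑ / n) ^ 2 := by nlinarith
  have h6 : a * (x ^ 2 + 2 * c * (1 - x) ^ 2) ≤ a * x ^ 2 + 2 * c * (1 - x) ^ 2 := by
    have : 0 ≤ (1 - a) * (2 * c * (1 - x) ^ 2) := mul_nonneg h1a (by positivity)
    linarith
  have h7 : a * (x ^ 2 + 2 * c * (1 - x) ^ 2) ≤
      x * (2 - 2 * y) - ((2 - 2 * y) ^ 2 / 4 - c * (2 * y) ^ 2) := by nlinarith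
  nlinarith [mul_le_mul_of_nonneg_right h7 hL]

/-- the integral part, for a real function on the circle -/
theorem tail_int {ϑ a : ℝ} (hϑ : 0 < ϑ) (hϑ1 : ϑ ≤ 1 / 2) {c : ℝ} (hc : 0 ≤ c) {n : ℕ}
    (hn : 0 < n) (hn2 : (1 + 4 * c) * (ϑ / n) ^ 2 ≤ (1 - a) * (1 - ϑ) ^ 2) {L : ℝ} (hL : 0 < L)
    {u : ℝ → ℝ} (hu : Continuous u) (hu1 : ∀ θ, u θ ≤ L) (C : ℝ → ℝ)
    (H : ∀ j ∈ Finset.range n, (1 / (2 * π)) * ∫ θ in (0:ℝ)..(2 * π),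
        exp (u θ * (2 - 2 * (ϑ * ((j : ℝ) + 1) / n))) ≤
          C (2 * (ϑ * ((j : ℝ) + 1) / n)) * exp (L * (1 - 2 * (ϑ * ((j : ℝ) + 1) / n) +
            (1 / 4 - c) * (2 * (ϑ * ((j : ℝ) + 1) / n)) ^ 2))) :
    (1 / (2 * π)) * ∫ θ in {θ : ℝ | θ ∈ Ioc 0 (2 * π) ∧ (1 - ϑ) * L ≤ u θ},
        exp (a * (u θ ^ 2 + 2 * c * (L - u θ) ^ 2) / L) ≤
      ∑ j ∈ Finset.range n, |C (2 * (ϑ * ((j : ℝ) + 1) / n))| := by
  have hpi : 0 < 1 / (2 * π) := by positivity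
  obtain ⟨g, hg⟩ : ∃ g : ℝ → ℝ, g = fun θ => ∑ j ∈ Finset.range n,
      exp (u θ * (2 - 2 * (ϑ * ((j : ℝ) + 1) / n))) *
        exp (-(((2 - 2 * (ϑ * ((j : ℝ) + 1) / n)) ^ 2 / 4 -
          c * (2 * (ϑ * ((j : ℝ) + 1) / n)) ^ 2) * L)) := ⟨_, rfl⟩
  have hgc : Continuous g := by
    rw [hg]
    fun_prop
  have hg0 : ∀ θ, 0 ≤ g θ := by
    intro θ
    rw [hg]
    exact Finset.sum_nonneg fun i _ => by positivity
  have hSm : MeasurableSet {θ : ℝ | θ ∈ Ioc 0 (2 * π) ∧ (1 - ϑ) * L ≤ u θ} :=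
    measurableSet_Ioc.inter (measurableSet_le measurable_const hu.measurable)
  have hSs : {θ : ℝ | θ ∈ Ioc 0 (2 * π) ∧ (1 - ϑ) * L ≤ u θ} ⊆ Ioc 0 (2 * π) := fun _ h => h.1
  have hgI : IntegrableOn g (Ioc 0 (2 * π)) := hgc.integrableOn_Ioc
  have hfI : IntegrableOn (fun θ => exp (a * (u θ ^ 2 + 2 * c * (L - u θ) ^ 2) / L))
      (Ioc 0 (2 * π)) := by
    have : Continuous (fun θ => exp (a * (u θ ^ 2 + 2 * c * (L - u θ) ^ 2) / L)) := by fun_prop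
    exact this.integrableOn_Ioc
  have h1 : ∫ θ in {θ : ℝ | θ ∈ Ioc 0 (2 * π) ∧ (1 - ϑ) * L ≤ u θ},
      exp (a * (u θ ^ 2 + 2 * c * (L - u θ) ^ 2) / L) ≤
      ∫ θ in {θ : ℝ | θ ∈ Ioc 0 (2 * π) ∧ (1 - ϑ) * L ≤ u θ}, g θ := by
    refine setIntegral_mono_on (hfI.mono_set hSs) (hgI.mono_set hSs) hSm ?_
    intro θ hθ
    have h2 := pointwise hϑ hϑ1 hc hn hn2 (x := u θ / L) hL.le
      (by rw [le_div_iff₀ hL]; exact hθ.2) (by rw [div_le_one hL]; exact hu1 θ)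
    have e1 : a * ((u θ / L) ^ 2 + 2 * c * (1 - u θ / L) ^ 2) * L =
        a * (u θ ^ 2 + 2 * c * (L - u θ) ^ 2) / L := by
      field_simp
    have e2 : u θ / L * L = u θ := by
      field_simp
    rw [e1, e2] at h2
    rw [hg]
    exact h2
  have h3 : ∫ θ in {θ : ℝ | θ ∈ Ioc 0 (2 * π) ∧ (1 - ϑ) * L ≤ u θ}, g θ ≤
      ∫ θ in Ioc 0 (2 * π), g θ :=
    setIntegral_mono_set hgI (Filter.Eventually.of_forall hg0) (Filter.Eventually.of_forall hSs)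
  have h4 : ∫ θ in Ioc 0 (2 * π), g θ = ∑ j ∈ Finset.range n,
      (∫ θ in (0:ℝ)..(2 * π), exp (u θ * (2 - 2 * (ϑ * ((j : ℝ) + 1) / n)))) *
        exp (-(((2 - 2 * (ϑ * ((j : ℝ) + 1) / n)) ^ 2 / 4 -
          c * (2 * (ϑ * ((j : ℝ) + 1) / n)) ^ 2) * L)) := by
    rw [← intervalIntegral.integral_of_le (by positivity), hg,
      intervalIntegral.integral_finsetSum]
    · refine Finset.sum_congr rfl fun j _ => ?_
      rw [intervalIntegral.integral_mul_const]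
    · intro j _
      apply Continuous.intervalIntegrable
      fun_prop
  calc (1 / (2 * π)) * ∫ θ in {θ : ℝ | θ ∈ Ioc 0 (2 * π) ∧ (1 - ϑ) * L ≤ u θ},
        exp (a * (u θ ^ 2 + 2 * c * (L - u θ) ^ 2) / L)
      ≤ (1 / (2 * π)) * ∫ θ in Ioc 0 (2 * π), g θ :=
        mul_le_mul_of_nonneg_left (h1.trans h3) hpi.le
    _ = ∑ j ∈ Finset.range n, ((1 / (2 * π)) *
      ∫ θ in (0:ℝ)..(2 * π), exp (u θ * (2 - 2 * (ϑ * ((j : ℝ) + 1) / n)))) *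
        exp (-(((2 - 2 * (ϑ * ((j : ℝ) + 1) / n)) ^ 2 / 4 -
          c * (2 * (ϑ * ((j : ℝ) + 1) / n)) ^ 2) * L)) := by
        rw [h4, Finset.mul_sum]
        exact Finset.sum_congr rfl fun j _ => by ring
    _ ≤ ∑ j ∈ Finset.range n, |C (2 * (ϑ * ((j : ℝ) + 1) / n))| := by
        refine Finset.sum_le_sum fun j hj => ?_
        have h5 := H j hj
        obtain ⟨δ, hδ⟩ : ∃ δ : ℝ, δ = 2 * (ϑ * ((j : ℝ) + 1) / n) := ⟨_, rfl⟩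
        rw [← hδ] at h5 ⊢
        calc _ ≤ (C δ * exp (L * (1 - δ + (1 / 4 - c) * δ ^ 2))) *
              exp (-(((2 - δ) ^ 2 / 4 - c * δ ^ 2) * L)) :=
              mul_le_mul_of_nonneg_right h5 (exp_pos _).le
          _ = C δ := by
              rw [mul_assoc, ← exp_add]
              have : L * (1 - δ + (1 / 4 - c) * δ ^ 2) +
                  -(((2 - δ) ^ 2 / 4 - c * δ ^ 2) * L) = 0 := by ring
              rw [this, exp_zero, mul_one]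
          _ ≤ |C δ| := le_abs_self _

/-- The upper tail of the strong Marshall conjecture, from the moment bounds near `t = 2`. -/
theorem tail (H : ∃ c : ℝ, 0 < c ∧ ∃ δ₀ : ℝ, 0 < δ₀ ∧ ∀ δ : ℝ, 0 < δ → δ < δ₀ → ∃ C : ℝ,
      ∀ ψ : ℂ → ℂ, DifferentiableOn ℂ ψ {z : ℂ | 1 < ‖z‖} → Set.InjOn ψ {z : ℂ | 1 < ‖z‖} →
      (∃ b : ℂ, Filter.Tendsto (fun z => ψ z - z) (Bornology.cobounded ℂ) (nhds b)) →
      ∀ R : ℝ, 1 < R →
        (1 / (2 * π)) * ∫ θ in (0:ℝ)..(2 * π),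
          ‖deriv ψ ((R : ℂ) * Complex.exp ((θ : ℂ) * Complex.I))‖ ^ (2 - δ) ≤
        C * (R ^ 2 / (R ^ 2 - 1)) ^ (1 - δ + (1 / 4 - c) * δ ^ 2)) :
    ∃ κ : ℝ, 0 < κ ∧ ∃ ϑ : ℝ, 0 < ϑ ∧ ∀ a : ℝ, 0 < a → a < 1 → ∃ C : ℝ,
      ∀ R : ℝ, 1 < R → ∀ ψ h : ℂ → ℂ,
      DifferentiableOn ℂ ψ {z : ℂ | 1 < ‖z‖} → Set.InjOn ψ {z : ℂ | 1 < ‖z‖} →
      (∃ b : ℂ, Filter.Tendsto (fun z => ψ z - z) (Bornology.cobounded ℂ) (nhds b)) →
      DifferentiableOn ℂ h {z : ℂ | 1 < ‖z‖} →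
      (∀ z : ℂ, 1 < ‖z‖ → Complex.exp (h z) = deriv ψ z) →
      Filter.Tendsto h (Bornology.cobounded ℂ) (nhds 0) →
      (1 / (2 * π)) * ∫ θ in {θ : ℝ | θ ∈ Ioc 0 (2 * π) ∧
          (1 - ϑ) * Real.log (R ^ 2 / (R ^ 2 - 1)) ≤
            (h ((R : ℂ) * Complex.exp ((θ : ℂ) * Complex.I))).re},
        Real.exp (a * ((h ((R : ℂ) * Complex.exp ((θ : ℂ) * Complex.I))).re ^ 2 +
          κ * (Real.log (R ^ 2 / (R ^ 2 - 1)) -
            (h ((R : ℂ) * Complex.exp ((θ : ℂ) * Complex.I))).re) ^ 2)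
          / Real.log (R ^ 2 / (R ^ 2 - 1))) ≤ C := by
  obtain ⟨c, hc, δ₀, hδ₀, H⟩ := H
  obtain ⟨ϑ, hϑ, hϑ1, hϑ2⟩ : ∃ ϑ : ℝ, 0 < ϑ ∧ ϑ ≤ 1 / 2 ∧ 2 * ϑ < δ₀ := by
    refine ⟨min (1 / 2) (δ₀ / 4), by positivity, min_le_left _ _, ?_⟩
    have := min_le_right (1 / 2 : ℝ) (δ₀ / 4)
    linarith
  choose! C hC using H
  refine ⟨2 * c, by linarith, ϑ, hϑ, fun a ha ha1 => ?_⟩
  obtain ⟨n, hn, hn2⟩ : ∃ n : ℕ, 0 < n ∧
      (1 + 4 * c) * (ϑ / n) ^ 2 ≤ (1 - a) * (1 - ϑ) ^ 2 := by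
    have hpos : 0 < (1 - a) * (1 - ϑ) ^ 2 / (1 + 4 * c) := by
      have : 0 < 1 - a := by linarith
      have : 0 < 1 - ϑ := by linarith
      positivity
    obtain ⟨n, hn⟩ := exists_nat_gt (ϑ / Real.sqrt ((1 - a) * (1 - ϑ) ^ 2 / (1 + 4 * c)))
    have hs := Real.sqrt_pos.2 hpos
    have hn0 : (0 : ℝ) < n := lt_trans (by positivity) hn
    refine ⟨n, by exact_mod_cast hn0, ?_⟩
    have h1 : (ϑ / n) ^ 2 ≤ (1 - a) * (1 - ϑ) ^ 2 / (1 + 4 * c) := by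
      rw [← Real.sq_sqrt hpos.le]
      apply pow_le_pow_left₀ (by positivity)
      rw [div_lt_iff₀ hs] at hn
      rw [div_le_iff₀ hn0]
      linarith
    rw [le_div_iff₀ (by positivity)] at h1
    linarith
  have hn0 : (0 : ℝ) < n := by exact_mod_cast hn
  refine ⟨∑ j ∈ Finset.range n, |C (2 * (ϑ * ((j : ℝ) + 1) / n))|, ?_⟩
  intro R hR ψ h hψ hinj hb hh hexp hh0
  have hR2 : 0 < R ^ 2 - 1 := by nlinarith
  have hE : 1 < R ^ 2 / (R ^ 2 - 1) := by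
    rw [one_lt_div hR2]
    linarith
  have hL : 0 < Real.log (R ^ 2 / (R ^ 2 - 1)) := Real.log_pos hE
  have hnorm : ∀ θ : ℝ, ‖(R : ℂ) * Complex.exp ((θ : ℂ) * Complex.I)‖ = R := by
    intro θ
    rw [norm_mul, Complex.norm_exp_ofReal_mul_I, mul_one, Complex.norm_real, Real.norm_eq_abs,
      abs_of_pos (by linarith)]
  have hmem : ∀ θ : ℝ, 1 < ‖(R : ℂ) * Complex.exp ((θ : ℂ) * Complex.I)‖ := by
    intro θ
    rw [hnorm]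
    exact hR
  have hcont : Continuous (fun θ : ℝ => (h ((R : ℂ) * Complex.exp ((θ : ℂ) * Complex.I))).re) := by
    have h1 : Continuous (fun θ : ℝ => h ((R : ℂ) * Complex.exp ((θ : ℂ) * Complex.I))) := by
      refine hh.continuousOn.comp_continuous (by fun_prop) hmem
    exact Complex.continuous_re.comp h1
  refine tail_int hϑ hϑ1 hc.le hn hn2 hL hcont ?_ C ?_
  · intro θ
    have h1 := Pool.Agent.Helper39.Area.goluzin_ext hψ hinj hb hh hexp hh0 (hmem θ)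
    rw [hnorm] at h1
    exact (Complex.re_le_norm _).trans h1
  · intro j hj
    have hj1 : ((j : ℝ) + 1) ≤ n := by
      have := Finset.mem_range.1 hj
      exact_mod_cast this
    obtain ⟨δ, hδ⟩ : ∃ δ : ℝ, δ = 2 * (ϑ * ((j : ℝ) + 1) / n) := ⟨_, rfl⟩
    have hδ0 : 0 < δ := by
      rw [hδ]
      positivity
    have hδ1 : δ < δ₀ := by
      refine lt_of_le_of_lt ?_ hϑ2
      rw [hδ]
      apply mul_le_mul_of_nonneg_left _ (by norm_num)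
      rw [div_le_iff₀ hn0]
      exact mul_le_mul_of_nonneg_left hj1 hϑ.le
    have h2 := hC δ hδ0 hδ1 ψ hψ hinj hb R hR
    rw [← hδ]
    have e1 : exp (Real.log (R ^ 2 / (R ^ 2 - 1)) * (1 - δ + (1 / 4 - c) * δ ^ 2)) =
        (R ^ 2 / (R ^ 2 - 1)) ^ (1 - δ + (1 / 4 - c) * δ ^ 2) := by
      rw [Real.rpow_def_of_pos (by linarith)]
    rw [e1]
    refine le_trans (le_of_eq ?_) h2
    congr 1
    apply intervalIntegral.integral_congr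
    intro θ _
    show exp ((h ((R : ℂ) * Complex.exp ((θ : ℂ) * Complex.I))).re * (2 - δ)) =
      ‖deriv ψ ((R : ℂ) * Complex.exp ((θ : ℂ) * Complex.I))‖ ^ (2 - δ)
    rw [← hexp _ (hmem θ), Complex.norm_exp, Real.exp_mul]

/-- Two literal parts of the integral of the strong Marshall conjecture. -/
theorem parts (H : ∃ c : ℝ, 0 < c ∧ ∃ δ₀ : ℝ, 0 < δ₀ ∧ ∀ δ : ℝ, 0 < δ → δ < δ₀ → ∃ C : ℝ,
      ∀ ψ : ℂ → ℂ, DifferentiableOn ℂ ψ {z : ℂ | 1 < ‖z‖} → Set.InjOn ψ {z : ℂ | 1 < ‖z‖} →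
      (∃ b : ℂ, Filter.Tendsto (fun z => ψ z - z) (Bornology.cobounded ℂ) (nhds b)) →
      ∀ R : ℝ, 1 < R →
        (1 / (2 * π)) * ∫ θ in (0:ℝ)..(2 * π),
          ‖deriv ψ ((R : ℂ) * Complex.exp ((θ : ℂ) * Complex.I))‖ ^ (2 - δ) ≤
        C * (R ^ 2 / (R ^ 2 - 1)) ^ (1 - δ + (1 / 4 - c) * δ ^ 2)) :
    ∃ ϑ : ℝ, 0 < ϑ ∧ ∀ a : ℝ, 0 < a → a < 1 → ∃ C : ℝ, ∀ R : ℝ, 1 < R → ∀ ψ h : ℂ → ℂ,
      DifferentiableOn ℂ ψ {z : ℂ | 1 < ‖z‖} → Set.InjOn ψ {z : ℂ | 1 < ‖z‖} →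
      (∃ b : ℂ, Filter.Tendsto (fun z => ψ z - z) (Bornology.cobounded ℂ) (nhds b)) →
      DifferentiableOn ℂ h {z : ℂ | 1 < ‖z‖} →
      (∀ z : ℂ, 1 < ‖z‖ → Complex.exp (h z) = deriv ψ z) →
      Filter.Tendsto h (Bornology.cobounded ℂ) (nhds 0) →
      (1 / (2 * π)) * ∫ θ in {θ : ℝ | θ ∈ Ioc 0 (2 * π) ∧
          (1 - ϑ) * Real.log (R ^ 2 / (R ^ 2 - 1)) ≤
            (h ((R : ℂ) * Complex.exp ((θ : ℂ) * Complex.I))).re},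
        Real.exp (a * (h ((R : ℂ) * Complex.exp ((θ : ℂ) * Complex.I))).re ^ 2
          / Real.log (R ^ 2 / (R ^ 2 - 1))) ≤ C ∧
      (1 / (2 * π)) * ∫ θ in {θ : ℝ | θ ∈ Ioc 0 (2 * π) ∧
          (1 - ϑ) * Real.log (R ^ 2 / (R ^ 2 - 1)) ≤
            (h ((R : ℂ) * Complex.exp ((θ : ℂ) * Complex.I))).re ∧
          |(h ((R : ℂ) * Complex.exp ((θ : ℂ) * Complex.I))).im| ≤
            ϑ * (Real.log (R ^ 2 / (R ^ 2 - 1)) -
              (h ((R : ℂ) * Complex.exp ((θ : ℂ) * Complex.I))).re)},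
        Real.exp (a * ‖h ((R : ℂ) * Complex.exp ((θ : ℂ) * Complex.I))‖ ^ 2
          / Real.log (R ^ 2 / (R ^ 2 - 1))) ≤ C := by
  obtain ⟨κ, hκ, ϑ₁, hϑ₁, H⟩ := tail H
  obtain ⟨ϑ, hϑ, hϑ1, hϑ2⟩ : ∃ ϑ : ℝ, 0 < ϑ ∧ ϑ ≤ ϑ₁ ∧ ϑ ^ 2 ≤ κ := by
    have hs := Real.sqrt_pos.2 hκ
    refine ⟨min ϑ₁ (Real.sqrt κ), lt_min hϑ₁ hs, min_le_left _ _, ?_⟩
    calc (min ϑ₁ (Real.sqrt κ)) ^ 2 ≤ (Real.sqrt κ) ^ 2 :=
          pow_le_pow_left₀ (lt_min hϑ₁ hs).le (min_le_right _ _) 2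
      _ = κ := Real.sq_sqrt hκ.le
  refine ⟨ϑ, hϑ, fun a ha ha1 => ?_⟩
  obtain ⟨C, hC⟩ := H a ha ha1
  refine ⟨C, fun R hR ψ h hψ hinj hb hh hexp hh0 => ?_⟩
  have hmain := hC R hR ψ h hψ hinj hb hh hexp hh0
  have hR2 : 0 < R ^ 2 - 1 := by nlinarith
  have hE : 1 < R ^ 2 / (R ^ 2 - 1) := by
    rw [one_lt_div hR2]
    linarith
  have hL : 0 < Real.log (R ^ 2 / (R ^ 2 - 1)) := Real.log_pos hE
  obtain ⟨L, hLe⟩ : ∃ L : ℝ, L = Real.log (R ^ 2 / (R ^ 2 - 1)) := ⟨_, rfl⟩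
  rw [← hLe] at hL hmain ⊢
  have hnorm : ∀ θ : ℝ, ‖(R : ℂ) * Complex.exp ((θ : ℂ) * Complex.I)‖ = R := by
    intro θ
    rw [norm_mul, Complex.norm_exp_ofReal_mul_I, mul_one, Complex.norm_real, Real.norm_eq_abs,
      abs_of_pos (by linarith)]
  have hmem : ∀ θ : ℝ, 1 < ‖(R : ℂ) * Complex.exp ((θ : ℂ) * Complex.I)‖ := by
    intro θ
    rw [hnorm]
    exact hR
  have hcont : Continuous (fun θ : ℝ => h ((R : ℂ) * Complex.exp ((θ : ℂ) * Complex.I))) :=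
    hh.continuousOn.comp_continuous (by fun_prop) hmem
  obtain ⟨w, hw⟩ : ∃ w : ℝ → ℂ, w = fun θ : ℝ => h ((R : ℂ) * Complex.exp ((θ : ℂ) * Complex.I)) :=
    ⟨_, rfl⟩
  have hwc : Continuous w := by
    rw [hw]
    exact hcont
  have hwθ : ∀ θ : ℝ, h ((R : ℂ) * Complex.exp ((θ : ℂ) * Complex.I)) = w θ := by
    intro θ
    rw [hw]
  simp only [hwθ] at hmain ⊢
  have hre : Continuous fun θ => (w θ).re := Complex.continuous_re.comp hwc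
  have him : Continuous fun θ => (w θ).im := Complex.continuous_im.comp hwc
  have hpi : 0 ≤ 1 / (2 * π) := by positivity
  have hS : MeasurableSet {θ : ℝ | θ ∈ Ioc 0 (2 * π) ∧ (1 - ϑ₁) * L ≤ (w θ).re} :=
    measurableSet_Ioc.inter (measurableSet_le measurable_const hre.measurable)
  have hfI : IntegrableOn (fun θ => exp (a * ((w θ).re ^ 2 + κ * (L - (w θ).re) ^ 2) / L))
      {θ : ℝ | θ ∈ Ioc 0 (2 * π) ∧ (1 - ϑ₁) * L ≤ (w θ).re} := by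
    have : Continuous (fun θ => exp (a * ((w θ).re ^ 2 + κ * (L - (w θ).re) ^ 2) / L)) := by
      fun_prop
    exact this.integrableOn_Ioc.mono_set fun _ h => h.1
  have key : ∀ (S : Set ℝ) (f : ℝ → ℝ), MeasurableSet S → Continuous f →
      S ⊆ {θ : ℝ | θ ∈ Ioc 0 (2 * π) ∧ (1 - ϑ₁) * L ≤ (w θ).re} →
      (∀ θ ∈ S, f θ ≤ exp (a * ((w θ).re ^ 2 + κ * (L - (w θ).re) ^ 2) / L)) →
      (1 / (2 * π)) * ∫ θ in S, f θ ≤ C := by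
    intro S f hSm hf hsub hle
    refine le_trans (mul_le_mul_of_nonneg_left ?_ hpi) hmain
    have hfS : IntegrableOn f S := hf.integrableOn_Ioc.mono_set fun _ h => (hsub h).1
    refine (setIntegral_mono_on hfS (hfI.mono_set hsub) hSm hle).trans ?_
    exact setIntegral_mono_set hfI (Filter.Eventually.of_forall fun θ => (exp_pos _).le)
      (Filter.Eventually.of_forall hsub)
  have hthr : (1 - ϑ₁) * L ≤ (1 - ϑ) * L := mul_le_mul_of_nonneg_right (by linarith) hL.le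
  constructor
  · refine key _ _ (measurableSet_Ioc.inter (measurableSet_le measurable_const hre.measurable))
      (by fun_prop) (fun θ hθ => ⟨hθ.1, hthr.trans hθ.2⟩) (fun θ _ => ?_)
    rw [exp_le_exp]
    apply div_le_div_of_nonneg_right _ hL.le
    apply mul_le_mul_of_nonneg_left _ ha.le
    have : 0 ≤ κ * (L - (w θ).re) ^ 2 := by positivity
    linarith
  · have hm1 : Measurable fun θ : ℝ => |(w θ).im| := (continuous_abs.comp him).measurable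
    have hm2 : Measurable fun θ : ℝ => ϑ * (L - (w θ).re) :=
      (continuous_const.mul (continuous_const.sub hre)).measurable
    refine key _ _ (measurableSet_Ioc.inter ((measurableSet_le measurable_const
      hre.measurable).inter (measurableSet_le hm1 hm2)))
      (by fun_prop) (fun θ hθ => ⟨hθ.1, hthr.trans hθ.2.1⟩) (fun θ hθ => ?_)
    rw [exp_le_exp]
    apply div_le_div_of_nonneg_right _ hL.le
    apply mul_le_mul_of_nonneg_left _ ha.le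
    have h1 : ‖w θ‖ ^ 2 = (w θ).re ^ 2 + (w θ).im ^ 2 := by
      rw [← Complex.normSq_eq_norm_sq, Complex.normSq_apply]
      ring
    have h2 : (w θ).im ^ 2 ≤ ϑ ^ 2 * (L - (w θ).re) ^ 2 := by
      rw [← sq_abs (w θ).im, ← mul_pow]
      exact pow_le_pow_left₀ (abs_nonneg _) hθ.2.2 2
    have h3 : ϑ ^ 2 * (L - (w θ).re) ^ 2 ≤ κ * (L - (w θ).re) ^ 2 :=
      mul_le_mul_of_nonneg_right hϑ2 (sq_nonneg _)
    rw [h1]
    linarith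

end Pool.Agent.Helper12.G3
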